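import Pool.Agent.Helper3.TP.St2

/-!
Project TP (MP_86d903_lc), module INDW: the global induction with the local theorem for given numbers.
-/

open Finset
open MP86d903 (Valid Lit inside mem_inside pt flip Clause Ineq clauseIneq vsF ngF Refutation Rule)
open Helper80.SR (Exp Closed Cl Sm Holds)
open Helper3.TL Helper3.TL.Dag Helper3.TP

namespace Helper50.TP

theorem hIndW (hC2 : Helper3.TL.StClo2) (hM1 : Helper3.TL.StFam1) (hM3 : Helper3.TL.StFam3)
    (hAx : Helper3.TL.StAx) : PIndW := by
  classical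
  intro B D κ₁ κ hL hκ
  intro n m F π q R₀ M₀ P w l K a A₀ Hd ρ₀ G Ro X hExp hq hqR hM₀ hP hPR hA₀ hl hval₀ hdeg
    hG hdiv hX haK hRe hRo
  set ψ : ℕ → ℕ → ℕ := fun k r => P + 2 * κ * ((K - k) + (K - r)) with hψ
  have hψle : ∀ k r, ψ k r ≤ P + 4 * κ * K := by
    intro k r
    have h1 : 2 * κ * ((K - k) + (K - r)) ≤ 2 * κ * (K + K) :=
      Nat.mul_le_mul_left _ (by omega)
    have h2 : 2 * κ * (K + K) = 4 * κ * K := by ring
    simp only [hψ]
    omega
  have hψk : ∀ k r, k + 1 ≤ K → ψ k r = ψ (k + 1) r + 2 * κ := by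
    intro k r h
    simp only [hψ]
    have e1 : (K - k) + (K - r) = ((K - (k + 1)) + (K - r)) + 1 := by omega
    rw [e1]
    ring
  have hψr : ∀ k r, 1 ≤ r → r ≤ K → ψ k (r - 1) = ψ k r + 2 * κ := by
    intro k r h h'
    simp only [hψ]
    have e1 : (K - k) + (K - (r - 1)) = ((K - k) + (K - r)) + 1 := by omega
    rw [e1]
    ring
  have hq1 : 1 ≤ q := by omega
  -- the flow
  have hlt : ∀ x y, Prem π x y → x < y := fun x y h => prem_lt h
  obtain ⟨Φ, hΦ⟩ := exists_flow (Prem π) hlt X
  have hΦ0 := flow_nonneg hlt hΦ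
  have hΦX : ∀ i, Φ i < 2 ^ a := fun i => by
    refine lt_of_le_of_lt (flow_le hlt hΦ i) ?_
    exact_mod_cast hX
  have hterm : ∀ x, 0 ≤ Φ x / outs (Prem π) x := fun x =>
    div_nonneg (hΦ0 x) (Nat.cast_nonneg _)
  have hΦprem : ∀ {x y}, Prem π x y → Φ x / outs (Prem π) x ≤ Φ y := by
    intro x y h
    rw [hΦ y]
    have h1 : Φ x / outs (Prem π) x ≤
        ∑ x ∈ univ.filter (fun x => Prem π x y), Φ x / outs (Prem π) x :=
      single_le_sum (f := fun x => Φ x / outs (Prem π) x) (fun x _ => hterm x)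
        (mem_filter.mpr ⟨mem_univ _, h⟩)
    have h2 : (0 : ℝ) ≤ if y ∈ X then 1 else 0 := by split_ifs <;> norm_num
    linarith
  have hΦtwo : ∀ {j k y}, Prem π j y → Prem π k y → j ≠ k →
      Φ j / outs (Prem π) j + Φ k / outs (Prem π) k ≤ Φ y := by
    intro j k y hj hk hjk
    rw [hΦ y, ← sum_pair (f := fun x => Φ x / outs (Prem π) x) hjk]
    have h1 : ∑ x ∈ ({j, k} : Finset (Fin π.size)), Φ x / outs (Prem π) x ≤
        ∑ x ∈ univ.filter (fun x => Prem π x y), Φ x / outs (Prem π) x := by
      refine sum_le_sum_of_subset_of_nonneg ?_ (fun x _ _ => hterm x)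
      intro x hx
      rw [mem_insert, mem_singleton] at hx
      rcases hx with rfl | rfl
      · exact mem_filter.mpr ⟨mem_univ _, hj⟩
      · exact mem_filter.mpr ⟨mem_univ _, hk⟩
    have h2 : (0 : ℝ) ≤ if y ∈ X then 1 else 0 := by split_ifs <;> norm_num
    linarith
  have hout1 : ∀ {x y}, Prem π x y → 1 ≤ outs (Prem π) x := by
    intro x y h
    unfold outs
    exact card_pos.mpr ⟨y, mem_filter.mpr ⟨mem_univ _, h⟩⟩
  set ct : Fin π.size → ℕ := fun x => cost a (outs (Prem π) x) with hct
  set S : Set (Fin π.size) := {x | ¬ G x ∨ 1 < outs (Prem π) x} with hS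
  have hnS : ∀ x, x ∉ S → G x ∧ outs (Prem π) x ≤ 1 := by
    intro x hx
    constructor
    · by_contra h
      exact hx (Or.inl h)
    · by_contra h
      exact hx (Or.inr (not_le.mp h))
  have hlcard := hl.card_le
  -- states are points over the root
  have hOK : ∀ {ψ' A ρ}, ψ' ≤ P + 4 * κ * K → State F q ψ' A₀ Hd ρ₀ A ρ →
      OKp F q M₀ A₀ ρ₀ A ρ := by
    intro ψ' A ρ h hst
    have := hst.card
    exact ⟨hst.sub₀, hst.sc.closed', by omega, hst.val, hst.eq₀⟩
  -- the claim
  have claim : ∀ i : Fin π.size,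
      ((univ.filter (fun v => (π.line i).coef v ≠ 0)).card ≤ w → ∀ R σ,
        OKp F q M₀ A₀ ρ₀ R σ → ¬ Viol (π.line i) (pt R σ)) ∧
      (G i → ∀ s' r' b A ρ, s' + b ≤ K → r' ≤ K →
        (∀ j, Prem π j i → G j → FewW π G ct s' j) → Few π G Ro r' i →
        State F q (ψ (s' + b) r') A₀ Hd ρ₀ A ρ → Viol (π.line i) (pt A ρ) →
        (2 : ℝ) ^ b ≤ Φ i) := by
    intro i
    induction i using WellFoundedLT.induction with
    | _ i ih =>
    -- a line below `i` is not violated at a fresh point
    have hfresh : ∀ x, x < i → ∀ R σ, A₀ ⊆ R → Closed (vsF F) q R → Sm (vsF F) (l + w) R →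
        Valid (vsF F) (ngF F) σ R → (∀ i ∈ A₀, σ i = ρ₀ i) → ¬ Viol (π.line x) (pt R σ) := by
      intro x hx R σ h1 h2 h3 h4 h5 hv
      have h6 := h3.card_le
      have h7 : OKp F q M₀ A₀ ρ₀ R σ := ⟨h1, h2, by omega, h4, h5⟩
      rcases hG x with hGx | hnx | hkx
      · have r8 : (R ∪ Hd).card ≤ R.card + Hd.card := card_union_le _ _
        have e2 := hψle (K - a + a) K
        have e3 : P ≤ ψ (K - a + a) K := Nat.le_add_right _ _
        obtain ⟨A', ρ', hst', hv'⟩ := exists_state hC2 (ψ := ψ (K - a + a) K)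
              (A₀ := A₀) (Hd := Hd) (ρ₀ := ρ₀) hExp (by omega) (by omega)
              (subset_union_left (s₁ := R) (s₂ := Hd)) subset_union_right h1 h2 h4 h5 (by omega)
              (by omega) (π.line x) hv
        have := (ih x hx).2 hGx (K - a) K a A' ρ' (by omega) le_rfl (fun j _ hj => hRe j hj)
          (hRo x hGx) hst' hv'
        exact absurd (hΦX x) (not_lt.mpr this)
      · exact (ih x hx).1 hnx R σ h7 hv
      · exact hkx R σ h7 hv
    refine ⟨?_, ?_⟩
    · -- narrow lines
      rintro hni R σ ⟨g1, g2, g3, g4, g5⟩ hv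
      have hin : 19 * (inside (vsF F) R).card ≤ 10 * R.card :=
        Helper80.SR.card_inside_le hExp R (by omega)
      have hnot : ¬ Holds (vsF F) (ngF F) q A₀ ρ₀ (l + w) (π.line i).coef (π.line i).rhs := by
        intro hH
        have h1 := Helper80.SR.holds_reset (M := M₀) (w := w) (l := l) hExp (by omega) (by omega)
          hA₀ hl (by omega) hni hH R.card
        have h2 := h1 R σ ⟨g2, g1, ⟨by omega, hin⟩, g4, g5⟩
        unfold Viol at hv
        omega
      unfold Helper80.SR.Holds at hnot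
      push Not at hnot
      obtain ⟨R', σ', ⟨f1, f2, f3, f4, f5⟩, f6⟩ := hnot
      have f6' : Viol (π.line i) (pt R' σ') := f6
      rcases hr : π.rule i with c | v | v | ⟨j, k, α, β⟩ | ⟨j, c⟩
      · exact not_viol_axiom (hAx n m F q R' σ' hq1 f1 f4) (Or.inl ⟨c, hr⟩) f6'
      · exact not_viol_axiom (hAx n m F q R' σ' hq1 f1 f4) (Or.inr (Or.inl ⟨v, hr⟩)) f6'
      · exact not_viol_axiom (hAx n m F q R' σ' hq1 f1 f4) (Or.inr (Or.inr ⟨v, hr⟩)) f6'
      · rcases viol_comb hr f6' with h | h
        · exact hfresh j (prem_lt (by unfold Prem; rw [hr]; exact Or.inl rfl)) R' σ' f2 f1 f3 f4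
            f5 h
        · exact hfresh k (prem_lt (by unfold Prem; rw [hr]; exact Or.inr rfl)) R' σ' f2 f1 f3 f4
            f5 h
      · have hjust := π.justified i
        rw [hr] at hjust
        obtain ⟨hji, hc, hcoef, hrhs⟩ : j < i ∧ 1 ≤ c ∧
          (∀ v, (π.line j).coef v = c * (π.line i).coef v) ∧
          (π.line i).rhs = ⌈((π.line j).rhs : ℚ) / c⌉ := hjust
        have hnot2 : ¬ Holds (vsF F) (ngF F) q A₀ ρ₀ (l + w) (π.line j).coef
            (π.line j).rhs := by
          intro hH
          have h1 := Helper80.SR.holds_narrow (M := M₀) (w := w) (l := l) (k := l + w) hExp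
            (by omega) (by omega) hA₀ hl (by omega) (by omega) hc hcoef hrhs hni hH
          have h2 := h1 R' σ' ⟨f1, f2, f3, f4, f5⟩
          omega
        unfold Helper80.SR.Holds at hnot2
        push Not at hnot2
        obtain ⟨R'', σ'', ⟨e1, e2, e3, e4, e5⟩, e6⟩ := hnot2
        exact hfresh j hji R'' σ'' e2 e1 e3 e4 e5 e6
    · -- good lines
      intro hGi s' r' b A ρ hbK hrK hEx hFi hst hv
      have h0 := hψle (s' + b) r'
      have h1 := hst.card
      have hAκ : A.card + κ ≤ M₀ := by omega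
      have hcardR : ∀ R : Finset (Fin n), A ⊆ R → (R \ A).card ≤ κ → R.card ≤ A.card + κ := by
        intro R hAR hR
        have := card_sdiff_add_card_eq_card hAR
        omega
      have hEnv : Env (vsF F) q D κ A := ⟨MP86d903.vsF_card F, ⟨M₀, R₀, hExp, hq, hqR, hAκ⟩,
        hst.sc, fun i hi => hdeg i (fun h => hi (hst.subH h))⟩
      have hPtOK : ∀ {R σ}, Pt F q κ A ρ R σ → OKp F q M₀ A₀ ρ₀ R σ := by
        rintro R σ ⟨g1, g2, g3, g4, g5⟩
        exact ⟨hst.sub₀.trans g1, g2, (hcardR R g1 g3).trans hAκ, g4,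
          fun i hi => by rw [g5 i (hst.sub₀ hi), hst.eq₀ i hi]⟩
      have hPt : ∀ {R σ}, Pt F q κ₁ A ρ R σ → Pt F q κ A ρ R σ := fun h =>
        ⟨h.1, h.2.1, by have := h.2.2.1; omega, h.2.2.2⟩
      have hPtA : Pt F q κ₁ A ρ A ρ :=
        ⟨subset_refl _, hst.sc.closed', by simp, hst.val, fun _ _ => rfl⟩
      -- a point close to `(A, ρ)` gives a new state
      have hnew : ∀ ψ', ψ (s' + b) r' + 2 * κ ≤ ψ' →
          ψ' ≤ P + 4 * κ * K → ∀ (x : Fin π.size) R σ, Pt F q κ A ρ R σ →
          Viol (π.line x) (pt R σ) → ∃ A' ρ', State F q ψ' A₀ Hd ρ₀ A' ρ' ∧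
            Viol (π.line x) (pt A' ρ') := by
        rintro ψ' hψ1 hψ2 x R σ ⟨g1, g2, g3, g4, g5⟩ hv'
        have g6 := hcardR R g1 g3
        have g7 : (inside (vsF F) A).card ≤ (inside (vsF F) R).card :=
          card_le_card (Helper80.SR.inside_mono g1)
        have g8 := hst.dens
        exact exists_state hC2 (ψ := ψ')
          (A₀ := A₀) (Hd := Hd) (ρ₀ := ρ₀) hExp (by omega) (by omega) (subset_refl R)
          (hst.subH.trans g1) (hst.sub₀.trans g1) g2 g4
          (fun i hi => by rw [g5 i (hst.sub₀ hi), hst.eq₀ i hi]) (by omega) (by omega)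
          (π.line x) hv'
      -- the reached lines
      have hreach : ∀ y, Reach π S i y → G y ∧ (∀ j, Prem π j y → G j → FewW π G ct s' j) ∧
          Few π G Ro r' y ∧ Φ y ≤ Φ i := by
        intro y hy
        induction hy with
        | refl => exact ⟨hGi, hEx, hFi, le_rfl⟩
        | step _ h2 h3 ihy =>
          obtain ⟨i1, i2, i3, i4⟩ := ihy
          obtain ⟨j1, j2⟩ := hnS _ h3
          refine ⟨j1, fun j hj hGj => ((i2 _ h2 j1).prem j1 hj).mono (Nat.sub_le _ _),
            i3.prem i1 h2, ?_⟩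
          have h4 := hΦprem h2
          have h5 : outs (Prem π) _ = 1 := le_antisymm j2 (hout1 h2)
          rw [h5, Nat.cast_one, div_one] at h4
          exact h4.trans i4
      -- premises of reached lines
      have hup : ∀ y x b' r'', Reach π S i y → Prem π x y → s' + b' ≤ K →
          r'' ≤ K → Few π G Ro r'' x → ∀ A' ρ', State F q (ψ (s' + b') r'') A₀ Hd ρ₀ A' ρ' →
          Viol (π.line x) (pt A' ρ') →
          (x ∉ S ∧ (2 : ℝ) ^ b' ≤ Φ x ∧ outs (Prem π) x = 1) ∨ (2 : ℝ) ^ (b' + 1) ≤ Φ i := by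
        intro y x b' r'' hy hx hbK' hr'' hFx A' ρ' hst' hv'
        have hyi : y ≤ i := hy.le
        have hxi : x < i := lt_of_lt_of_le (prem_lt hx) hyi
        obtain ⟨i1, i2, i3, i4⟩ := hreach y hy
        have hOKx := hOK (hψle _ _) hst'
        by_cases hGx : G x
        swap
        · exfalso
          rcases hG x with h | h | h
          · exact hGx h
          · exact (ih x hxi).1 h A' ρ' hOKx hv'
          · exact h A' ρ' hOKx hv'
        have hF := i2 x hx hGx
        have hcx : ct x ≤ s' := hF.le hGx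
        have e1 : (s' - ct x) + (b' + ct x) = s' + b' := by omega
        have hk := (ih x hxi).2 hGx (s' - ct x) r'' (b' + ct x) A' ρ' (by omega) hr''
          (fun j hj _ => hF.prem hGx hj) hFx (by rw [e1]; exact hst') hv'
        have hu1 := hout1 hx
        by_cases hu : outs (Prem π) x ≤ 1
        · left
          have hc0 : ct x = 0 := by
            simp only [hct, cost, if_pos hu]
          rw [hc0, add_zero] at hk
          refine ⟨?_, hk, by omega⟩
          rintro (h | h)
          · exact h hGx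
          · omega
        · right
          have hc1 : ct x = min a (Nat.clog 2 (outs (Prem π) x) + 1) := by
            simp only [hct, cost, if_neg hu]
          by_cases hac : a ≤ Nat.clog 2 (outs (Prem π) x) + 1
          · exfalso
            rw [hc1, min_eq_left hac] at hk
            have h2 : (2 : ℝ) ^ a ≤ 2 ^ (b' + a) :=
              pow_le_pow_right₀ (by norm_num) (Nat.le_add_left _ _)
            exact absurd (hΦX x) (not_lt.mpr (h2.trans hk))
          · rw [hc1, min_eq_right (by omega)] at hk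
            have h2 := hΦprem hx
            have h3 : (outs (Prem π) x : ℝ) ≤ 2 ^ (Nat.clog 2 (outs (Prem π) x)) := by
              exact_mod_cast Nat.le_pow_clog (by norm_num) _
            have h4 : (0 : ℝ) < outs (Prem π) x := by exact_mod_cast hu1
            refine le_trans ?_ (h2.trans i4)
            rw [le_div_iff₀ h4]
            refine le_trans ?_ hk
            have h5 : b' + (Nat.clog 2 (outs (Prem π) x) + 1) =
                (b' + 1) + Nat.clog 2 (outs (Prem π) x) := by omega
            rw [h5, pow_add (2 : ℝ) (b' + 1) (Nat.clog 2 (outs (Prem π) x))]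
            exact mul_le_mul_of_nonneg_left h3 (by positivity)
      have hFew : ∀ {y x}, Reach π S i y → Prem π x y → Few π G Ro r' x := by
        intro y x hy hx
        obtain ⟨i1, i2, i3, i4⟩ := hreach y hy
        exact i3.prem i1 hx
      -- the premise of a rough step
      have hrough : ∀ d p c, Reach π S i d → π.rule d = .div p c → Ro d →
          (∃ R σ, Pt F q κ₁ A ρ R σ ∧ Viol (π.line d) (pt R σ)) → (2 : ℝ) ^ b ≤ Φ i := by
        rintro d p c hd hr hRd ⟨R, σ, hP', hvd⟩
        have hpd : Prem π p d := by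
          unfold Prem
          rw [hr]
          rfl
        obtain ⟨hGd, -, hFd, hΦd⟩ := hreach d hd
        have hr1 := hFd.pos hGd hRd
        obtain ⟨R', σ', p', v'⟩ := d_div_step hM1 hM3 hκ.symm.le hEnv hr hP' hvd
        have e1 := hψr (s' + b) r' hr1 hrK
        obtain ⟨A', ρ', hst', hv''⟩ := hnew _ e1.symm.le (hψle _ _) p R' σ' p' v'
        rcases hup d p b (r' - 1) hd hpd hbK (by omega)
          (hFd.prem' hGd hRd hpd) A' ρ' hst' hv'' with ⟨-, k1, k2⟩ | k
        · have h2 := hΦprem hpd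
          rw [k2, Nat.cast_one, div_one] at h2
          exact k1.trans (h2.trans hΦd)
        · refine le_trans ?_ k
          exact pow_le_pow_right₀ (by norm_num) (Nat.le_succ _)
      rcases b with _ | b
      · -- `b = 0`
        by_cases hst0 : ∃ y x, Reach π S i y ∧ Prem π x y ∧ x ∈ S ∧ Viol (π.line x) (pt A ρ)
        · obtain ⟨y, x, hy, hx, hxS, hvx⟩ := hst0
          rcases hup y x 0 r' hy hx hbK hrK (hFew hy hx) A ρ hst hvx with ⟨h, -⟩ | h
          · exact absurd hxS h
          · refine le_trans ?_ h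
            norm_num
        obtain ⟨d, p, c, hd, hr, hvd, -, hnp⟩ := dag2 (S := S)
          (hAx n m F q A ρ hq1 hst.sc.closed' hst.val)
          (fun y x hy hx hxS hvx => hst0 ⟨y, x, hy, hx, hxS, hvx⟩) hv
        obtain ⟨hGd, -, hFd, hΦd⟩ := hreach d hd
        rcases hdiv d p c hGd hr with h | ⟨h, -⟩ | h
        · exact hrough d p c hd hr h ⟨A, ρ, hPtA, hvd⟩
        · rw [pow_zero]
          refine le_trans ?_ hΦd
          rw [hΦ d, if_pos h]
          have : 0 ≤ ∑ x ∈ univ.filter (fun x => Prem π x d), Φ x / outs (Prem π) x :=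
            sum_nonneg (fun x _ => hterm x)
          linarith
        · exact absurd hvd (h A ρ (hOK (hψle _ _) hst) hnp)
      · -- `b + 1`
        have e0 := hψk (s' + b) r' (by omega)
        have hfam : ∀ y x R σ, Reach π S i y → Prem π x y → Pt F q κ A ρ R σ →
            Viol (π.line x) (pt R σ) →
            (x ∉ S ∧ (2 : ℝ) ^ b ≤ Φ x ∧ outs (Prem π) x = 1) ∨ (2 : ℝ) ^ (b + 1) ≤ Φ i := by
          intro y x R σ hy hx hP' hvx
          obtain ⟨A', ρ', hst', hv''⟩ := hnew _ e0.symm.le (hψle _ _) x R σ hP' hvx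
          exact hup y x b r' hy hx (by omega) hrK (hFew hy hx) A' ρ' hst' hv''
        by_cases hst1 : ∃ y x R σ, Reach π S i y ∧ Prem π x y ∧ x ∈ S ∧ Pt F q κ₁ A ρ R σ ∧
            Viol (π.line x) (pt R σ)
        · obtain ⟨y, x, R, σ, hy, hx, hxS, hP', hvx⟩ := hst1
          rcases hfam y x R σ hy hx (hPt hP') hvx with ⟨h, -⟩ | h
          · exact absurd hxS h
          · exact h
        rcases hL n m F π S q Ro A ρ i (env_mono (by omega) hEnv) hst.val hv
          (fun y x hy hx hxS R σ hP' hvx => hst1 ⟨y, x, R, σ, hy, hx, hxS, hP', hvx⟩)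
          (fun d p c hd hr => by
            rcases hdiv d p c (hreach d hd).1 hr with h | ⟨-, h⟩ | h
            · exact Or.inl h
            · exact Or.inr (Or.inl h)
            · exact Or.inr (Or.inr fun R σ hP' => h R σ (hPtOK (hPt hP')))) with
          ⟨y, j, k, α, β, hy, hr, hjk, hjS, hkS, ⟨R₁, σ₁, p1, v1⟩, R₂, σ₂, p2, v2⟩ |
          ⟨d, p, c, hd, hr, hRd, R, σ, p', v'⟩
        · have hj : Prem π j y := by
            unfold Prem
            rw [hr]
            exact Or.inl rfl
          have hk : Prem π k y := by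
            unfold Prem
            rw [hr]
            exact Or.inr rfl
          rcases hfam y j R₁ σ₁ hy hj (hPt p1) v1 with ⟨-, k1, o1⟩ | h
          swap
          · exact h
          rcases hfam y k R₂ σ₂ hy hk (hPt p2) v2 with ⟨-, k2, o2⟩ | h
          swap
          · exact h
          have h2 := hΦtwo hj hk hjk
          rw [o1, o2, Nat.cast_one, div_one, div_one] at h2
          have h3 := (hreach y hy).2.2.2
          rw [pow_succ]
          linarith
        · exact hrough d p c hd hr hRd ⟨R, σ, p', v'⟩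
  -- the last line
  obtain ⟨i, hi⟩ := π.falsum
  refine (claim i).1 ?_ A₀ ρ₀ ⟨subset_refl _, hA₀, by omega, hval₀, fun _ _ => rfl⟩ ?_
  · rw [hi]
    simp
  · rw [hi]
    unfold Viol
    simp

end Helper50.TP
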